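import Mathlib
import Pool.Agent.T2H33.NR3
import Pool.Agent.T2H33.NR4

set_option autoImplicit false

/-!
# A criterion of Gelfond's type for the pair `π`, `e`

By Khintchine a real number `x` is rational if (and only if) for some `w > 1` and all large `X` there is an
integer `1 ≤ q ≤ X` with `‖q x‖ ≤ X^(-w)`; Gelfond's criterion is the analogue for algebraic numbers. For pairs of
numbers there is no such criterion: Khintchine constructed numbers `x, y` for which `1, x, y` are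
linearly independent over `ℚ`, while for every `w` and all large `X` there are integers `a, b, c`, not all `0`, of
absolute value at most `X` with `|a + b x + c y| ≤ X^(-w)`. We show that this phenomenon does not occur for the
pair `(π, e)`, and prove a criterion both for linear and for algebraic dependence of `π` and `e`.

(1) The numbers `1, π, e` are linearly dependent over `ℚ` if and only if for some `w > 3` and all large `X`
there are integers `a, b, c`, not all `0`, of absolute value at most `X` with `|a + b π + c e| ≤ X^(-w)`. It is even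
sufficient to have such integers for the terms of a sequence `X_n → ∞` with
`X_n ≤ X_(n+1) ≤ X_n^A`, if `w > 3 A`; then these linear forms vanish for all large `n`.

(2) Let `k ≥ 1` and `κ > 8 k⁴ + 4 k²`. There is a nonzero polynomial `F` in `ℤ[X, Y]` of degree at most `k` in
each variable with `F(π, e) = 0` if and only if for all large `H` there is a nonzero polynomial `F` in `ℤ[X, Y]` of
degree at most `k` in each variable and of height at most `H` with `|F(π, e)| ≤ H^(-κ)`. It is even sufficient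
to have such polynomials `F_n` for the terms of a sequence `H_n → ∞` with `H_n ≤ H_(n+1) ≤ H_n^A`, if
`κ > (8 k⁴ + 4 k²) A`; then these polynomials, for all large `n`, have a common irreducible factor which vanishes
at `(π, e)`.

The number `π` may be replaced by any real number `θ`.
-/

namespace Pool.Agent.Results.MP_363d4d_nt.CriterionForDependence

open Polynomial Filter

/-- the value `v_0 + v_1 θ + v_2 e` of an integer vector -/
noncomputable def linearForm (θ : ℝ) (v : Fin 3 → ℤ) : ℝ := v 0 + v 1 * θ + v 2 * Real.exp 1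

/-- the value at `X = θ`, `Y = e` of a polynomial `F` in `ℤ[Y][X]` -/
noncomputable def value (θ : ℝ) (F : ℤ[X][X]) : ℝ :=
  (F.map (aeval (Real.exp 1) : ℤ[X] →ₐ[ℤ] ℝ).toRingHom).eval θ

/-- `F` in `ℤ[Y][X]` has degree at most `k` in both variables -/
structure DegreeAtMost (k : ℕ) (F : ℤ[X][X]) : Prop where
  degree_outer : F.natDegree ≤ k
  degree_inner : ∀ i, (F.coeff i).natDegree ≤ k

/-- `F` in `ℤ[Y][X]` has degree at most `k` in both variables, and all its integer coefficients have absolute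
value at most `H` -/
structure Bounded (k : ℕ) (H : ℝ) (F : ℤ[X][X]) : Prop extends DegreeAtMost k F where
  height : ∀ i j, |(((F.coeff i).coeff j : ℤ) : ℝ)| ≤ H

/-- the numbers `1, x, y` are linearly dependent over `ℚ` -/
def LinearlyDependent (x y : ℝ) : Prop := ¬ LinearIndependent ℚ ![1, x, y]

theorem dependent_of_form {θ : ℝ} {v : Fin 3 → ℤ} (hv : v ≠ 0) (h : linearForm θ v = 0) :
    LinearlyDependent θ (Real.exp 1) := by
  intro hli
  rw [Fintype.linearIndependent_iff] at hli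
  apply hv
  have h1 := hli (fun i => (v i : ℚ)) (by
    rw [Fin.sum_univ_three]
    simp only [Matrix.cons_val_zero, Matrix.cons_val_one, Matrix.cons_val, Rat.smul_def]
    rw [linearForm] at h
    push_cast
    linarith)
  funext i
  have h2 := h1 i
  exact_mod_cast h2

theorem form_of_dependent {θ : ℝ} (h : LinearlyDependent θ (Real.exp 1)) :
    ∃ v : Fin 3 → ℤ, v ≠ 0 ∧ linearForm θ v = 0 := by
  rw [LinearlyDependent, Fintype.not_linearIndependent_iff] at h
  obtain ⟨g, hg, i, hi⟩ := h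
  -- a common denominator
  obtain ⟨N, hN⟩ : ∃ N : ℕ, N = (g 0).den * (g 1).den * (g 2).den := ⟨_, rfl⟩
  have hN0 : N ≠ 0 := by
    rw [hN]
    exact mul_ne_zero (mul_ne_zero (g 0).den_ne_zero (g 1).den_ne_zero) (g 2).den_ne_zero
  have hint : ∀ j : Fin 3, ∃ m : ℤ, (m : ℚ) = N * g j := by
    intro j
    have h1 : (g j).den ∣ N := by
      rw [hN]
      fin_cases j
      · exact (Dvd.intro _ rfl : (g 0).den ∣ (g 0).den * (g 1).den).mul_right _
      · exact (Dvd.intro_left _ rfl : (g 1).den ∣ (g 0).den * (g 1).den).mul_right _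
      · exact Dvd.intro_left _ rfl
    obtain ⟨t, ht⟩ := h1
    refine ⟨t * (g j).num, ?_⟩
    rw [ht]
    push_cast
    have h2 : ((g j).den : ℚ) * g j = (g j).num := by rw [mul_comm]; exact Rat.mul_den_eq_num (g j)
    linear_combination (-(t : ℚ)) * h2
  choose m hm using hint
  refine ⟨m, ?_, ?_⟩
  · intro h0
    have h1 := hm i
    rw [h0, Pi.zero_apply, Int.cast_zero] at h1
    rcases mul_eq_zero.1 h1.symm with h2 | h2
    · exact hN0 (by exact_mod_cast h2)
    · exact hi h2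
  · rw [Fin.sum_univ_three] at hg
    simp only [Matrix.cons_val_zero, Matrix.cons_val_one, Matrix.cons_val, Rat.smul_def] at hg
    have e : ∀ j, (m j : ℝ) = N * (g j : ℝ) := fun j => by exact_mod_cast congrArg (fun q : ℚ => (q : ℝ)) (hm j)
    rw [linearForm, e 0, e 1, e 2]
    linear_combination (N : ℝ) * hg

open Pool.Agent.T2H33.NR Pool.Agent.T2H33.NL

theorem bd_of {k : ℕ} {H : ℝ} {F : ℤ[X][X]} (h : Bounded k H F) : Bd k H F :=
  ⟨h.degree_outer, h.degree_inner, h.height⟩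

theorem linear_seq (A w θ : ℝ) (hA : 1 ≤ A) (hw : 3 * A < w) (X : ℕ → ℝ) (v : ℕ → Fin 3 → ℤ)
    (hlim : Tendsto X atTop atTop) (hX : ∀ n, 1 ≤ X n ∧ X n ≤ X (n + 1) ∧ X (n + 1) ≤ X n ^ A)
    (hv : ∀ n, v n ≠ 0 ∧ (∀ i, |(v n i : ℝ)| ≤ X n) ∧ |linearForm θ (v n)| ≤ X n ^ (-w)) :
    ∃ n₀, ∀ n, n₀ ≤ n → linearForm θ (v n) = 0 :=
  lin_criterion A w θ hA hw X v (fun n => (hX n).1) hlim (fun n => (hX n).2.1) (fun n => (hX n).2.2)
    (fun n => (hv n).1) (fun n => (hv n).2.1) (fun n => (hv n).2.2)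

/-- the sequence of the powers of two -/
theorem pow_two_seq {A : ℝ} (hA : 1 < A) (X₀ : ℝ) : ∃ m : ℕ, ∀ n : ℕ, X₀ ≤ 2 ^ (n + m) ∧
    (1 : ℝ) ≤ 2 ^ (n + m) ∧ (2 : ℝ) ^ (n + m) ≤ 2 ^ (n + 1 + m) ∧ (2 : ℝ) ^ (n + 1 + m) ≤ (2 ^ (n + m)) ^ A := by
  have t1 : Tendsto (fun n : ℕ => (2 : ℝ) ^ n) atTop atTop := tendsto_pow_atTop_atTop_of_one_lt (by norm_num)
  have t2 : Tendsto (fun n : ℕ => ((2 : ℝ) ^ n) ^ (A - 1)) atTop atTop := (tendsto_rpow_atTop (by linarith)).comp t1
  obtain ⟨m, hm⟩ := eventually_atTop.1 ((t1.eventually (eventually_ge_atTop X₀)).and (t2.eventually (eventually_ge_atTop 2)))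
  refine ⟨m, fun n => ⟨(hm (n + m) (by omega)).1, one_le_pow₀ (by norm_num),
    pow_le_pow_right₀ (by norm_num) (by omega), ?_⟩⟩
  have e1 := (hm (n + m) (by omega)).2
  have e2 : (0 : ℝ) < 2 ^ (n + m) := by positivity
  calc (2 : ℝ) ^ (n + 1 + m) = 2 * 2 ^ (n + m) := by rw [← pow_succ']; congr 1; omega
    _ ≤ ((2 : ℝ) ^ (n + m)) ^ (A - 1) * 2 ^ (n + m) := by gcongr
    _ = ((2 : ℝ) ^ (n + m)) ^ (A - 1 + 1) := by rw [Real.rpow_add e2, Real.rpow_one]
    _ = ((2 : ℝ) ^ (n + m)) ^ A := by congr 1; ring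

theorem result :
    -- the linear criterion, for `π` and along sequences for all real numbers
    ((LinearlyDependent Real.pi (Real.exp 1) ↔ ∃ w : ℝ, 3 < w ∧ ∀ᶠ X : ℝ in atTop, ∃ v : Fin 3 → ℤ, v ≠ 0 ∧
        (∀ i, |(v i : ℝ)| ≤ X) ∧ |linearForm Real.pi v| ≤ X ^ (-w)) ∧
      (∀ (A w θ : ℝ) (X : ℕ → ℝ) (v : ℕ → Fin 3 → ℤ), 1 ≤ A → 3 * A < w → Tendsto X atTop atTop →
        (∀ n, 1 ≤ X n ∧ X n ≤ X (n + 1) ∧ X (n + 1) ≤ X n ^ A) →
        (∀ n, v n ≠ 0 ∧ (∀ i, |(v n i : ℝ)| ≤ X n) ∧ |linearForm θ (v n)| ≤ X n ^ (-w)) →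
        ∃ n₀, ∀ n, n₀ ≤ n → linearForm θ (v n) = 0)) ∧
    -- the algebraic criterion
    ((∀ (k : ℕ) (κ : ℝ), 1 ≤ k → 8 * (k : ℝ) ^ 4 + 4 * (k : ℝ) ^ 2 < κ →
        ((∃ F : ℤ[X][X], F ≠ 0 ∧ DegreeAtMost k F ∧ value Real.pi F = 0) ↔
          ∀ᶠ H : ℝ in atTop, ∃ F : ℤ[X][X], F ≠ 0 ∧ Bounded k H F ∧ |value Real.pi F| ≤ H ^ (-κ))) ∧
      (∀ (k : ℕ) (A κ θ : ℝ) (H : ℕ → ℝ) (F : ℕ → ℤ[X][X]), 1 ≤ k → 1 ≤ A →
        (8 * (k : ℝ) ^ 4 + 4 * (k : ℝ) ^ 2) * A < κ → Tendsto H atTop atTop →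
        (∀ n, 1 ≤ H n ∧ H n ≤ H (n + 1) ∧ H (n + 1) ≤ H n ^ A) →
        (∀ n, F n ≠ 0 ∧ Bounded k (H n) (F n) ∧ |value θ (F n)| ≤ H n ^ (-κ)) →
        ∃ P : ℤ[X][X], Irreducible P ∧ value θ P = 0 ∧ ∃ n₀, ∀ n, n₀ ≤ n → P ∣ F n)) := by
  refine ⟨⟨⟨fun h => ?_, ?_⟩, ?_⟩, ⟨fun k κ hk hκ => ⟨?_, fun h => ?_⟩, ?_⟩⟩
  · obtain ⟨v, hv, hv0⟩ := form_of_dependent h
    refine ⟨4, by norm_num, ?_⟩
    filter_upwards [eventually_ge_atTop (∑ i, |(v i : ℝ)|), eventually_gt_atTop 0] with X hX hX0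
    refine ⟨v, hv, fun i => ?_, ?_⟩
    · exact (Finset.single_le_sum (f := fun i => |(v i : ℝ)|) (fun _ _ => abs_nonneg _) (Finset.mem_univ i)).trans hX
    · rw [hv0, abs_zero]; positivity
  · rintro ⟨w, hw, h⟩
    obtain ⟨X₀, hX₀⟩ := eventually_atTop.1 h
    choose! v hv using hX₀
    have h1 : 1 < w / 3 := by linarith
    obtain ⟨A, hA1, hA2⟩ := exists_between h1
    obtain ⟨m, hm⟩ := pow_two_seq hA1 X₀
    have t1 : Tendsto (fun n : ℕ => (2 : ℝ) ^ n) atTop atTop := tendsto_pow_atTop_atTop_of_one_lt (by norm_num)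
    obtain ⟨n₀, hn₀⟩ := linear_seq A w Real.pi hA1.le (by linarith) (fun n => 2 ^ (n + m)) (fun n => v (2 ^ (n + m)))
      (t1.comp (tendsto_add_atTop_nat m)) (fun n => (hm n).2) (fun n => hv _ (hm n).1)
    exact dependent_of_form (hv _ (hm n₀).1).1 (hn₀ n₀ le_rfl)
  · intro A w θ X v hA hw hlim hX hv
    exact linear_seq A w θ hA hw X v hlim hX hv
  · rintro ⟨F, hF0, hFd, hF⟩
    filter_upwards [eventually_ge_atTop (∑ i ∈ Finset.range (k + 1), ∑ j ∈ Finset.range (k + 1), |(((F.coeff i).coeff j : ℤ) : ℝ)|),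
      eventually_gt_atTop 0] with H hH hH0
    refine ⟨F, hF0, ⟨hFd, fun i j => ?_⟩, ?_⟩
    · by_cases hij : i < k + 1 ∧ j < k + 1
      · refine le_trans ?_ hH
        refine le_trans ?_ (Finset.single_le_sum (f := fun i => ∑ j ∈ Finset.range (k + 1), |(((F.coeff i).coeff j : ℤ) : ℝ)|)
          (fun _ _ => Finset.sum_nonneg fun _ _ => abs_nonneg _) (Finset.mem_range.2 hij.1))
        exact Finset.single_le_sum (f := fun j => |(((F.coeff i).coeff j : ℤ) : ℝ)|) (fun _ _ => abs_nonneg _)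
          (Finset.mem_range.2 hij.2)
      · have h0 : (F.coeff i).coeff j = 0 := by
          rw [not_and_or, not_lt, not_lt] at hij
          rcases hij with h | h
          · rw [coeff_eq_zero_of_natDegree_lt (show F.natDegree < i by have := hFd.degree_outer; omega), coeff_zero]
          · exact coeff_eq_zero_of_natDegree_lt (by have := hFd.degree_inner i; omega)
        rw [h0, Int.cast_zero, abs_zero]
        exact hH0.le
    · rw [hF, abs_zero]; positivity
  · obtain ⟨P, h1, h2, h3, h4⟩ := criterion' k hk κ Real.pi hκ (h.mono fun H ⟨F, hF0, hF1, hF2⟩ => ⟨F, hF0, bd_of hF1, hF2⟩)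
    exact ⟨P, h1.ne_zero, ⟨h2, h3⟩, h4⟩
  · intro k A κ θ H F hk hA hκ hlim hH hF
    obtain ⟨P, h1, -, -, -, h2, h3⟩ := criterion k hk A κ θ hA (by
        have : 2 * (k : ℝ) * (A * (4 * (k : ℝ) ^ 3 + 2 * k)) = (8 * (k : ℝ) ^ 4 + 4 * (k : ℝ) ^ 2) * A := by ring
        rw [this]; exact hκ) H F (fun n => (hH n).1) hlim (fun n => (hH n).2.1) (fun n => (hH n).2.2) (fun n => (hF n).1)
      (fun n => bd_of (hF n).2.1) (fun n => (hF n).2.2)
    exact ⟨P, h1, h2, h3⟩

end Pool.Agent.Results.MP_363d4d_nt.CriterionForDependence
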