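import Mathlib
import Pool.Agent.T2H33.EQ2

set_option autoImplicit false

/-!
# Equidistribution at every scale of the multiples of `a π + b e`

A real number `x` is irrational if and only if the sequence `n x` is equidistributed modulo `1`. We
show a quantitative form of `one of π + e, π - e is irrational` which holds at every scale `N`, with a
power saving in the discrepancy, and uniformly in shifts.

(1) Let `δ, d ≥ 0` and `δ + d < 1/3`. For all sufficiently large `N` there is a primitive vector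
`(a₀, b₀)` such that for all integers `a, b` with `|a|, |b| ≤ N^δ` for which `(a, b)` is not an integer
multiple of `(a₀, b₀)` the finite sequence `n (a π + b e) + β`, `1 ≤ n ≤ N`, has discrepancy at
most `N^(-d)`, for every shift `β`: every interval `[s, t)` in `[0, 1]` contains the fractional parts of
`(t - s) N + O(N^(1-d))` terms, with constant `1`. The number `π` may be replaced by any real
number `θ`, and the bound for `N` does not depend on `θ`.

(2) In particular, for every `d < 1/3` and all sufficiently large `N` this holds for `π + e` or for `π - e`.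

Proof: a greedy decomposition of `N` into denominators given by Dirichlet's theorem shows that a
badly distributed sequence `n α` comes from a rational number `p / q` with `q ≤ N^d` and
`q |q α - p| ≤ N^(d-1)`. Two non-parallel directions with such approximations would give, after
elimination of `π`, too good an approximation of `e`, whose irrationality exponent is `2`.
-/

namespace Pool.Agent.Results.MP_363d4d_nt.EquidistributionAtEveryScale

open Finset

open Classical in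
/-- the number of the integers `1 ≤ n ≤ N` for which the fractional part of `n x + β` lies in `[s, t)` -/
noncomputable def count (x β : ℝ) (N : ℕ) (s t : ℝ) : ℕ :=
  ((Icc 1 N).filter fun n : ℕ => s ≤ Int.fract (n * x + β) ∧ Int.fract (n * x + β) < t).card

/-- the finite sequences `n x + β`, `1 ≤ n ≤ N`, have discrepancy at most `ε` modulo `1`, for all shifts `β` -/
def DiscrepancyAtMost (x : ℝ) (N : ℕ) (ε : ℝ) : Prop :=
  ∀ β s t : ℝ, 0 ≤ s → s ≤ t → t ≤ 1 → |(count x β N s t : ℝ) / N - (t - s)| ≤ ε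

/-- `(a, b)` is an integer multiple of `(a₀, b₀)` -/
def IsMultiple (a b a₀ b₀ : ℤ) : Prop := ∃ k : ℤ, a = k * a₀ ∧ b = k * b₀

open Pool.Agent.T2H33.EQ

theorem count_eq (x β : ℝ) (N : ℕ) (s t : ℝ) : count x β N s t = cnt x (x + β) N s t := by
  classical
  rw [count, cnt, card_filter, card_filter, range_eq_Ico]
  rw [show Icc 1 N = Ico (0 + 1) (N + 1) by ext n; simp only [mem_Icc, mem_Ico]; omega]
  rw [← sum_Ico_add' (fun n : ℕ => if s ≤ Int.fract ((n : ℝ) * x + β) ∧ Int.fract ((n : ℝ) * x + β) < t then 1 else 0) 0 N 1]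
  refine sum_congr rfl fun n _ => ?_
  have e : ((n + 1 : ℕ) : ℝ) * x + β = x + β + n * x := by push_cast; ring
  rw [e]

theorem disc_of_dev {x : ℝ} {N : ℕ} {d : ℝ} (hN : 1 ≤ N) (h : Dev x N ((N : ℝ) ^ (1 - d))) :
    DiscrepancyAtMost x N ((N : ℝ) ^ (-d)) := by
  intro β s t hs hst ht
  have h1 := h (x + β) s t hs hst ht
  have hN0 : (0 : ℝ) < N := by exact_mod_cast hN
  rw [count_eq]
  have e : (cnt x (x + β) N s t : ℝ) / N - (t - s) = ((cnt x (x + β) N s t : ℝ) - (t - s) * N) / N := by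
    field_simp
  rw [e, abs_div, abs_of_pos hN0, div_le_iff₀ hN0]
  refine h1.trans (le_of_eq ?_)
  rw [sub_eq_add_neg, Real.rpow_add hN0, Real.rpow_one]
  ring

theorem result :
    (∀ δ d : ℝ, 0 ≤ δ → 0 ≤ d → δ + d < 1 / 3 →
      ∃ N₀ : ℕ, ∀ θ : ℝ, ∀ N : ℕ, N₀ ≤ N → ∃ a₀ b₀ : ℤ, IsCoprime a₀ b₀ ∧
        ∀ a b : ℤ, |(a : ℝ)| ≤ (N : ℝ) ^ δ → |(b : ℝ)| ≤ (N : ℝ) ^ δ → ¬ IsMultiple a b a₀ b₀ →
          DiscrepancyAtMost (a * θ + b * Real.exp 1) N ((N : ℝ) ^ (-d))) ∧
    (∀ d : ℝ, d < 1 / 3 → ∃ N₀ : ℕ, ∀ N : ℕ, N₀ ≤ N →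
      DiscrepancyAtMost (Real.pi + Real.exp 1) N ((N : ℝ) ^ (-d)) ∨
      DiscrepancyAtMost (Real.pi - Real.exp 1) N ((N : ℝ) ^ (-d))) := by
  have h1 : ∀ δ d : ℝ, 0 ≤ δ → 0 ≤ d → δ + d < 1 / 3 →
      ∃ N₀ : ℕ, ∀ θ : ℝ, ∀ N : ℕ, N₀ ≤ N → ∃ a₀ b₀ : ℤ, IsCoprime a₀ b₀ ∧
        ∀ a b : ℤ, |(a : ℝ)| ≤ (N : ℝ) ^ δ → |(b : ℝ)| ≤ (N : ℝ) ^ δ → ¬ IsMultiple a b a₀ b₀ →
          DiscrepancyAtMost (a * θ + b * Real.exp 1) N ((N : ℝ) ^ (-d)) := by
    intro δ d hδ hd h
    obtain ⟨N₀, hN₀⟩ := main hδ hd h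
    refine ⟨max N₀ 1, fun θ N hN => ?_⟩
    obtain ⟨a₀, b₀, hc, hab⟩ := hN₀ θ N ((le_max_left _ _).trans hN)
    exact ⟨a₀, b₀, hc, fun a b ha hb hk => disc_of_dev ((le_max_right _ _).trans hN) (hab a b ha hb hk)⟩
  refine ⟨h1, fun d hd => ?_⟩
  obtain ⟨N₀, hN₀⟩ := h1 0 (max d 0) le_rfl (le_max_right _ _) (by
    rw [zero_add]; exact max_lt hd (by norm_num))
  refine ⟨max N₀ 1, fun N hN => ?_⟩
  obtain ⟨a₀, b₀, hc, hab⟩ := hN₀ Real.pi N ((le_max_left _ _).trans hN)
  have hN1 : (1 : ℝ) ≤ N := by exact_mod_cast (le_max_right _ _).trans hN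
  have hmono : (N : ℝ) ^ (-(max d 0)) ≤ (N : ℝ) ^ (-d) :=
    Real.rpow_le_rpow_of_exponent_le hN1 (neg_le_neg (le_max_left _ _))
  by_cases hk : IsMultiple 1 1 a₀ b₀
  · right
    have hk' : ¬ IsMultiple 1 (-1) a₀ b₀ := by
      rintro ⟨l, hl1, hl2⟩
      obtain ⟨k, hk1, hk2⟩ := hk
      have h3 : a₀ = b₀ := by
        have h4 : k ≠ 0 := by rintro rfl; simp at hk1
        exact mul_left_cancel₀ h4 (hk1.symm.trans hk2)
      rw [h3] at hl1
      omega
    have h2 := hab 1 (-1) (by simp) (by simp) hk'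
    have e : ((1 : ℤ) : ℝ) * Real.pi + ((-1 : ℤ) : ℝ) * Real.exp 1 = Real.pi - Real.exp 1 := by push_cast; ring
    rw [e] at h2
    exact fun β s t hs hst ht => (h2 β s t hs hst ht).trans hmono
  · left
    have h2 := hab 1 1 (by simp) (by simp) hk
    have e : ((1 : ℤ) : ℝ) * Real.pi + ((1 : ℤ) : ℝ) * Real.exp 1 = Real.pi + Real.exp 1 := by push_cast; ring
    rw [e] at h2
    exact fun β s t hs hst ht => (h2 β s t hs hst ht).trans hmono

end Pool.Agent.Results.MP_363d4d_nt.EquidistributionAtEveryScale
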