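import Mathlib
import Pool.Agent.T2H33.EF

set_option autoImplicit false

/-!
# `π + e`, `π - e` and the values of the error function and of the incomplete gamma functions

For real numbers `a, x > 0` let `Γ(a, x) = ∫_x^∞ t^(a-1) e^(-t) dt` and
`P(a, x) = 1 / Γ(a) * ∫_0^x t^(a-1) e^(-t) dt` (the distribution function of the gamma distribution).

(1) If `π` and `e` are algebraically dependent over `ℚ` (for example if one of the numbers `π + e`,
`π - e` is rational or algebraic), then `e` and all the numbers `erf(√x)`, `x` positive rational, are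
algebraically independent over `ℚ`.

(2) In particular: if one of the numbers `π + e`, `π - e` is algebraic, then `erf(√x)` is
transcendental for all positive rational `x`.

(3) Let `A` be a finite set of rational numbers in the open interval `(0, 1/2)`. At most `|A| + 1` of
the following numbers are algebraic: `π + e`, `π - e`, `π e`, `π / e`, and `P(a, x)`, `Γ(a, x)` for `x`
positive rational and `a = 1/2`, `a ∈ A` or `1 - a ∈ A`. For the numbers `P(a, x)` and `Γ(a, x)`
it is even enough here that they are algebraic over `ℚ(e)`. Numbers of different names are counted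
separately.

(4) For all `x > 0` one has `P(1/2, x) = erf(√x)` and `Γ(1/2, x) = √π (1 - erf(√x))`. So the case `A = ∅`
of (3) says that at most one of `π + e`, `π - e`, `π e`, `π / e`, `erf(√x)`, `√π (1 - erf(√x))` (`x` positive
rational) is algebraic.
-/

namespace Pool.Agent.Results.MP_363d4d_nt.ErrorFunctionAlternative

open Set

/-- `erf(x) = 2 / √π * ∫_0^x e^(-t²) dt` -/
noncomputable def erf (x : ℝ) : ℝ := 2 / √Real.pi * ∫ t in (0 : ℝ)..x, Real.exp (-t ^ 2)

/-- `P(a, x) = 1 / Γ(a) * ∫_0^x t^(a-1) e^(-t) dt` -/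
noncomputable def P (a x : ℝ) : ℝ := (∫ t in (0 : ℝ)..x, t ^ (a - 1) * Real.exp (-t)) / Real.Gamma a

/-- `Γ(a, x) = ∫_x^∞ t^(a-1) e^(-t) dt` -/
noncomputable def upperGamma (a x : ℝ) : ℝ := ∫ t in Ioi x, t ^ (a - 1) * Real.exp (-t)

/-- `x` is algebraic over `ℚ(e)` -/
def AlgebraicOverE (x : ℝ) : Prop := IsAlgebraic (IntermediateField.adjoin ℚ {Real.exp 1}) x

/-- the names of the numbers `π + e`, `π - e`, `π e`, `π / e`, `P(a, x)`, `Γ(a, x)` -/
inductive Name where
  | piPlusE
  | piMinusE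
  | piTimesE
  | piOverE
  | lower (a x : ℚ)
  | upper (a x : ℚ)

/-- the number with the given name is algebraic (over `ℚ(e)` in the case of `P(a, x)` and `Γ(a, x)`) -/
def Name.Algebraic : Name → Prop
  | .piPlusE => IsAlgebraic ℚ (Real.pi + Real.exp 1)
  | .piMinusE => IsAlgebraic ℚ (Real.pi - Real.exp 1)
  | .piTimesE => IsAlgebraic ℚ (Real.pi * Real.exp 1)
  | .piOverE => IsAlgebraic ℚ (Real.pi / Real.exp 1)
  | .lower a x => AlgebraicOverE (P a x)
  | .upper a x => AlgebraicOverE (upperGamma a x)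

/-- the names belonging to the set `A`: those of `π + e`, `π - e`, `π e`, `π / e`, and those of `P(a, x)`
and `Γ(a, x)` with `x > 0` and `a ∈ A`, `1 - a ∈ A` or `a = 1 / 2` -/
def Name.Belongs (A : Finset ℚ) : Name → Prop
  | .lower a x => (a ∈ A ∨ 1 - a ∈ A ∨ a = 1 / 2) ∧ 0 < x
  | .upper a x => (a ∈ A ∨ 1 - a ∈ A ∨ a = 1 / 2) ∧ 0 < x
  | _ => True

/-- the translation of the names -/
def Name.tr : Name → Pool.Agent.T2H33.EF.Name
  | .piPlusE => .sum
  | .piMinusE => .difference
  | .piTimesE => .product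
  | .piOverE => .quotient
  | .lower a x => .lower a x
  | .upper a x => .upper a x

theorem tr_injective : Function.Injective Name.tr := by
  intro n m h
  cases n <;> cases m <;> simp_all [Name.tr]

theorem alg_tr (n : Name) (h : n.Algebraic) : n.tr.Alg := by
  cases n with
  | piPlusE => exact h
  | piMinusE => exact h
  | piTimesE => exact h
  | piOverE => exact h
  | lower a x => exact Pool.Agent.R352.E.mem_clF.2 h
  | upper a x => exact Pool.Agent.R352.E.mem_clF.2 h

theorem in_tr (A : Finset ℚ) (n : Name) (h : n.Belongs A) : n.tr.In A := by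
  cases n with
  | piPlusE => trivial
  | piMinusE => trivial
  | piTimesE => trivial
  | piOverE => trivial
  | lower a x => exact h
  | upper a x => exact h

theorem dep_of_alg (h : IsAlgebraic ℚ (Real.pi + Real.exp 1) ∨ IsAlgebraic ℚ (Real.pi - Real.exp 1)) :
    Real.pi ∈ Pool.Agent.R352.E.clF {Real.exp 1} := by
  rcases h with h | h
  · exact Pool.Agent.T2H33.EF.pi_mem_of_special (n := .sum) h (by simp)
  · exact Pool.Agent.T2H33.EF.pi_mem_of_special (n := .difference) h (by simp)

theorem half_eq {x : ℝ} (hx : 0 < x) :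
    P (1 / 2) x = erf (√x) ∧ upperGamma (1 / 2) x = √Real.pi * (1 - erf (√x)) := by
  have h1 : P (1 / 2) x = erf (√x) := (Pool.Agent.T2H33.EF.erf_eq hx).symm
  refine ⟨h1, ?_⟩
  have h2 := Pool.Agent.T2H33.EF.gl_add_gu (a := 1 / 2) (by norm_num) hx
  have h3 : (Pool.Agent.T2H33.EF.gl (1 / 2) x) = P (1 / 2) x * √Real.pi := by
    rw [P, Real.Gamma_one_half_eq, div_mul_cancel₀ _ (by positivity)]
    rfl
  have h4 : Pool.Agent.R352.T.gu (1 / 2) x = upperGamma (1 / 2) x := rfl
  rw [Real.Gamma_one_half_eq, h3, h4, h1] at h2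
  linarith

theorem result :
    (¬ AlgebraicIndependent ℚ ![Real.pi, Real.exp 1] →
      AlgebraicIndependent ℚ (fun o : Option {x : ℚ // 0 < x} =>
        o.elim (Real.exp 1) (fun x => erf (√((x : ℚ) : ℝ))))) ∧
    (IsAlgebraic ℚ (Real.pi + Real.exp 1) ∨ IsAlgebraic ℚ (Real.pi - Real.exp 1) →
      ∀ x : ℚ, 0 < x → Transcendental ℚ (erf (√(x : ℝ)))) ∧
    (∀ A : Finset ℚ, (∀ a ∈ A, 0 < a ∧ a < 1 / 2) →
      {n : Name | n.Belongs A ∧ n.Algebraic}.encard ≤ ((A.card + 1 : ℕ) : ℕ∞)) ∧
    (∀ x : ℝ, 0 < x → P (1 / 2) x = erf (√x) ∧ upperGamma (1 / 2) x = √Real.pi * (1 - erf (√x))) := by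
  refine ⟨fun h => ?_, fun h x hx => ?_, fun A hA => ?_, fun x hx => half_eq hx⟩
  · exact Pool.Agent.T2H33.EF.AI_erf (Pool.Agent.T2H33.EF.pi_mem_of_dep h)
  · exact (Pool.Agent.T2H33.EF.AI_erf (dep_of_alg h)).transcendental (some ⟨x, hx⟩)
  · refine le_trans ?_ (Pool.Agent.T2H33.EF.count_names A hA)
    rw [← (tr_injective.injOn (s := {n : Name | n.Belongs A ∧ n.Algebraic})).encard_image]
    refine encard_le_encard ?_
    rintro _ ⟨n, ⟨h1, h2⟩, rfl⟩
    exact ⟨in_tr A n h1, alg_tr n h2⟩

end Pool.Agent.Results.MP_363d4d_nt.ErrorFunctionAlternative
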