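import Mathlib
import Pool.Agent.T2H33.NR2

set_option autoImplicit false

/-!
# At every scale there is at most one relation between `π` and `e`

Let `k ≥ 1` and `0 < c < 1 / (16 k³ + 8 k + 2)`.

(1) For all sufficiently large `N` there is an irreducible polynomial `P_N` in `ℤ[X, Y]`, of positive degree
in `X`, with the following two properties.

(a) `P_N` divides every polynomial `F` in `ℤ[X, Y]` of degree at most `k` in each variable and of height at most
`N^(4c)` with `|F(π, e)| ≤ 1 / N`.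

(b) Let `F`, `G` be polynomials in `ℤ[X, Y]` of degree at most `k` in each variable and of height at most
`N^c`, and suppose `|G(π, e)| ≥ N^(-c)`. The sequence of the multiples `n F(π, e) / G(π, e)`, `1 ≤ n ≤ N`, has
discrepancy at most `N^(-c)` modulo `1`, for every shift, unless the rational function `F / G` is
congruent to a rational number `p / q`, `1 ≤ q ≤ N^(1/2)`, modulo `P_N` (that is, `P_N` divides `q F - p G`), with
`|q F(π, e) / G(π, e) - p| ≤ N^(-1/2)`.

The number `π` may be replaced by any real number `θ`; the bound for `N` depends only on `k`, `c` and an upper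
bound for `|θ|`.

(2) For every `c < 1/26` and all sufficiently large `N` at least three of the four sequences `n (π + e)`,
`n (π - e)`, `n π e`, `n π / e`, `1 ≤ n ≤ N`, have discrepancy at most `N^(-c)`, for all shifts.

Proof: two polynomials without common factor which are small at `(π, e)` have a nonzero resultant
with respect to `X`, which is small at `e`; this contradicts the transcendence measure of `e`. A
generic integer combination of near relations avoids the finitely many prime factors of one of them, so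
that all near relations have a common prime factor. A sequence which is badly distributed at the
scale `N` gives a good rational approximation, hence a near relation.
-/

namespace Pool.Agent.Results.MP_363d4d_nt.OneRelationAtEveryScale

open Polynomial Finset

/-- the value at `X = θ`, `Y = e` of a polynomial `F` in `ℤ[Y][X]` -/
noncomputable def value (θ : ℝ) (F : ℤ[X][X]) : ℝ :=
  (F.map (aeval (Real.exp 1) : ℤ[X] →ₐ[ℤ] ℝ).toRingHom).eval θ

/-- `F` in `ℤ[Y][X]` has degree at most `k` in both variables, and all its integer coefficients have absolute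
value at most `H` -/
structure Bounded (k : ℕ) (H : ℝ) (F : ℤ[X][X]) : Prop where
  degree_outer : F.natDegree ≤ k
  degree_inner : ∀ i, (F.coeff i).natDegree ≤ k
  height : ∀ i j, |(((F.coeff i).coeff j : ℤ) : ℝ)| ≤ H

open Classical in
/-- the number of the integers `1 ≤ n ≤ N` for which the fractional part of `n x + β` lies in `[s, t)` -/
noncomputable def count (x β : ℝ) (N : ℕ) (s t : ℝ) : ℕ :=
  ((Icc 1 N).filter fun n : ℕ => s ≤ Int.fract (n * x + β) ∧ Int.fract (n * x + β) < t).card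

/-- the finite sequences `n x + β`, `1 ≤ n ≤ N`, have discrepancy at most `ε` modulo `1`, for all shifts `β` -/
def DiscrepancyAtMost (x : ℝ) (N : ℕ) (ε : ℝ) : Prop :=
  ∀ β s t : ℝ, 0 ≤ s → s ≤ t → t ≤ 1 → |(count x β N s t : ℝ) / N - (t - s)| ≤ ε

/-- the numbers `π + e`, `π - e`, `π e`, `π / e` -/
noncomputable def four : Fin 4 → ℝ :=
  ![Real.pi + Real.exp 1, Real.pi - Real.exp 1, Real.pi * Real.exp 1, Real.pi / Real.exp 1]

open Pool.Agent.T2H33.EQ Pool.Agent.T2H33.NR

theorem count_eq (x β : ℝ) (N : ℕ) (s t : ℝ) : count x β N s t = cnt x (x + β) N s t := by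
  classical
  rw [count, cnt, card_filter, card_filter, range_eq_Ico]
  rw [show Icc 1 N = Ico (0 + 1) (N + 1) by ext n; simp only [mem_Icc, mem_Ico]; omega]
  rw [← sum_Ico_add' (fun n : ℕ => if s ≤ Int.fract ((n : ℝ) * x + β) ∧ Int.fract ((n : ℝ) * x + β) < t then 1 else 0) 0 N 1]
  refine sum_congr rfl fun n _ => ?_
  have e : ((n + 1 : ℕ) : ℝ) * x + β = x + β + n * x := by push_cast; ring
  rw [e]

theorem disc_of_dev {x : ℝ} {N : ℕ} {d : ℝ} (hN : 1 ≤ N) (h : Dev x N ((N : ℝ) ^ (1 - d))) :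
    DiscrepancyAtMost x N ((N : ℝ) ^ (-d)) := by
  intro β s t hs hst ht
  have h1 := h (x + β) s t hs hst ht
  have hN0 : (0 : ℝ) < N := by exact_mod_cast hN
  rw [count_eq]
  have e : (cnt x (x + β) N s t : ℝ) / N - (t - s) = ((cnt x (x + β) N s t : ℝ) - (t - s) * N) / N := by
    field_simp
  rw [e, abs_div, abs_of_pos hN0, div_le_iff₀ hN0]
  refine h1.trans (le_of_eq ?_)
  rw [sub_eq_add_neg, Real.rpow_add hN0, Real.rpow_one]
  ring

theorem bd_of {k : ℕ} {H : ℝ} {F : ℤ[X][X]} (h : Bounded k H F) : Bd k H F :=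
  ⟨h.degree_outer, h.degree_inner, h.height⟩

theorem result :
    (∀ (k : ℕ) (c T : ℝ), 1 ≤ k → 0 < c → c < 1 / (16 * (k : ℝ) ^ 3 + 8 * k + 2) →
      ∃ N₀ : ℕ, ∀ (θ : ℝ) (N : ℕ), |θ| ≤ T → N₀ ≤ N → ∃ P : ℤ[X][X], Irreducible P ∧ 0 < P.natDegree ∧
        (∀ F : ℤ[X][X], Bounded k ((N : ℝ) ^ (4 * c)) F → |value θ F| ≤ 1 / N → P ∣ F) ∧
        (∀ F G : ℤ[X][X], Bounded k ((N : ℝ) ^ c) F → Bounded k ((N : ℝ) ^ c) G → (N : ℝ) ^ (-c) ≤ |value θ G| →
          DiscrepancyAtMost (value θ F / value θ G) N ((N : ℝ) ^ (-c)) ∨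
          ∃ p q : ℤ, 1 ≤ q ∧ (q : ℝ) ≤ (N : ℝ) ^ (1 / 2 : ℝ) ∧
            |q * (value θ F / value θ G) - p| ≤ (N : ℝ) ^ (-(1 / 2) : ℝ) ∧ P ∣ C (C q) * F - C (C p) * G)) ∧
    (∀ c : ℝ, c < 1 / 26 → ∃ N₀ : ℕ, ∀ N : ℕ, N₀ ≤ N → ∃ i₀ : Fin 4, ∀ i ≠ i₀,
      DiscrepancyAtMost (four i) N ((N : ℝ) ^ (-c))) := by
  constructor
  · intro k c T hk hc hck
    have hk1 : (1 : ℝ) ≤ k := by exact_mod_cast hk
    have hM : (0 : ℝ) < 16 * (k : ℝ) ^ 3 + 8 * k + 2 := by positivity
    rw [lt_div_iff₀ hM] at hck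
    obtain ⟨N₀, hN₀⟩ := equi k hk c (max T 1) hc hck (le_max_right _ _)
    refine ⟨max N₀ 1, fun θ N hθ hN => ?_⟩
    obtain ⟨P, hP1, hP2, hP3, hP4⟩ := hN₀ θ N (hθ.trans (le_max_left _ _)) ((le_max_left _ _).trans hN)
    refine ⟨P, hP1, hP2, fun F hF hF' => hP3 F (bd_of hF) hF', fun F G hF hG hGl => ?_⟩
    rcases hP4 F G (bd_of hF) (bd_of hG) hGl with h | ⟨p, q, h1, h2, h3, h4⟩
    · exact Or.inl (disc_of_dev ((le_max_right _ _).trans hN) h)
    · refine Or.inr ⟨p, q, h1, h2, h3, ?_⟩
      have e : C (C q) * F - C (C p) * G = C (C q) * F + C (C (-p)) * G := by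
        simp only [map_neg]; ring
      rw [e]
      exact h4
  · intro c hc
    obtain ⟨N₀, hN₀⟩ := three_of_four c hc
    refine ⟨max N₀ 1, fun N hN => ?_⟩
    obtain ⟨i₀, hi₀⟩ := hN₀ N ((le_max_left _ _).trans hN)
    exact ⟨i₀, fun i hi => disc_of_dev ((le_max_right _ _).trans hN) (hi₀ i hi)⟩

end Pool.Agent.Results.MP_363d4d_nt.OneRelationAtEveryScale
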